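import Pool.Agent.H70.WN.NAT
import Pool.Agent.H24.WT.Fur

/-!
# White noise: real multiplicative functions far from absolute value one, windows (row TRW)
-/

set_option autoImplicit false

namespace Pool.Agent.H70.WN

open MeasureTheory ProbabilityTheory Filter Topology Finset
open Pool.Agent.H89.MT (I1 X pt lavg SS)

/-- TRW. The coordinate vanishes. -/
def T_TRW : Prop := ∀ (u : ℕ → I1) (κ : Measure X) [IsProbabilityMeasure κ],
  (∀ m n : ℕ, m.Coprime n → (u (m * n) : ℝ) = u m * u n) → Pool.Agent.H24.WT.QGW u κ →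
  ¬ Summable (fun p : {p : ℕ // p.Prime} => (1 - (u p : ℝ) ^ 2) / (p : ℝ)) →
  ∫ y, (y 0 : ℝ) ^ 2 ∂κ = 0

/-- the natural mean tends to zero -/
theorem mean_le (a : ℕ → ℝ) (h0 : ∀ n, 0 ≤ a n) (h1 : ∀ n, a n ≤ 1)
    (hm : ∀ m n : ℕ, 0 < m → 0 < n → m.Coprime n → a (m * n) = a m * a n)
    (hs : ¬ Summable (fun p : Nat.Primes => (1 - a (p : ℕ)) / ((p : ℕ) : ℝ)))
    {ε : ℝ} (hε : 0 < ε) :
    ∃ x₀ : ℝ, 0 ≤ x₀ ∧ ∀ x : ℕ, 1 ≤ x → ∑ n ∈ Icc 1 x, a n ≤ ε * x + x₀ := by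
  have hl := lavg_f a h0 h1 hm hs
  have h2 : ∀ᶠ x : ℕ in atTop, lavg x a ≤ ε / 240 :=
    (hl.eventually_lt_const (by positivity : (0 : ℝ) < ε / 240)).mono fun x hx => hx.le
  have h3 : ∀ᶠ x : ℕ in atTop, √(x : ℝ) ≤ ε / 2 * x := by
    obtain ⟨N, hN⟩ := exists_nat_ge ((2 / ε) ^ 2)
    filter_upwards [eventually_ge_atTop N] with x hx
    have h4 : (2 / ε) ^ 2 ≤ (x : ℝ) := hN.trans (by exact_mod_cast hx)
    have h5 : 2 / ε ≤ √(x : ℝ) := Real.le_sqrt_of_sq_le h4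
    have h6 : √(x : ℝ) * √(x : ℝ) = x := Real.mul_self_sqrt (Nat.cast_nonneg x)
    have h7 : 2 ≤ √(x : ℝ) * ε := by rwa [div_le_iff₀ hε] at h5
    have h8 := mul_le_mul_of_nonneg_left h7 (Real.sqrt_nonneg (x : ℝ))
    nlinarith
  obtain ⟨N, hN⟩ := eventually_atTop.1 (h2.and (h3.and (eventually_ge_atTop 2)))
  refine ⟨N, Nat.cast_nonneg N, fun x hx => ?_⟩
  rcases le_total N x with h | h
  · obtain ⟨h4, h5, h6⟩ := hN x h
    have h7 := nat_mean a h0 h1 hm x h6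
    have hx0 : (0 : ℝ) ≤ x := Nat.cast_nonneg x
    have h8 : 120 * (x : ℝ) * lavg x a ≤ 120 * x * (ε / 240) :=
      mul_le_mul_of_nonneg_left h4 (by positivity)
    have h9 : (0 : ℝ) ≤ N := Nat.cast_nonneg N
    linarith
  · have h4 : ∑ n ∈ Icc 1 x, a n ≤ x := by
      calc ∑ n ∈ Icc 1 x, a n ≤ ∑ n ∈ Icc 1 x, (1 : ℝ) := sum_le_sum fun n _ => h1 n
        _ = x := by simp
    have h5 : (x : ℝ) ≤ N := by exact_mod_cast h
    have h6 : 0 ≤ ε * x := by positivity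
    linarith

/-- TRW. -/
theorem pf_TRW : T_TRW := by
  intro u κ _ hu hq hs
  obtain ⟨-, Y, Z, hYZ, hL, hF⟩ := hq
  set a : ℕ → ℝ := fun n => (u n : ℝ) ^ 2 with ha
  have hb : ∀ n, |(u n : ℝ)| ≤ 1 := fun n => abs_le.2 ⟨(u n).2.1, (u n).2.2⟩
  have a0 : ∀ n, 0 ≤ a n := fun n => sq_nonneg _
  have a1 : ∀ n, a n ≤ 1 := fun n => by
    have := abs_le_one_iff_mul_self_le_one.1 (hb n)
    simp only [ha]
    nlinarith
  have am : ∀ m n : ℕ, 0 < m → 0 < n → m.Coprime n → a (m * n) = a m * a n := fun m n _ _ h => by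
    simp only [ha]
    rw [hu m n h, mul_pow]
  have hlim := hF ⟨fun x => (x 0 : ℝ) ^ 2,
    (continuous_subtype_val.comp (continuous_apply 0)).pow 2⟩
  have h0 : 0 ≤ ∫ y : X, (y 0 : ℝ) ^ 2 ∂κ := integral_nonneg fun y => sq_nonneg _
  refine le_antisymm (le_of_forall_pos_le_add fun ε hε => ?_) h0
  rw [zero_add]
  obtain ⟨x₀, hx0, hM⟩ := mean_le a a0 a1 am hs hε
  have h2 : Tendsto (fun k => (1 + x₀) / Real.log ((Z k : ℝ) / Y k) + ε) atTop (𝓝 (0 + ε)) :=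
    (hL.const_div_atTop _).add_const ε
  rw [zero_add] at h2
  refine le_of_tendsto_of_tendsto hlim h2 ?_
  filter_upwards [hL.eventually_gt_atTop 0] with k hk
  have h3 := window a ε x₀ hx0 a0 a1 hε.le hM (Y k) (hYZ k).1 (Z k) (hYZ k).2.1
  have e : ∑ n ∈ Icc (Y k) (Z k), (⟨fun x => (x 0 : ℝ) ^ 2,
      (continuous_subtype_val.comp (continuous_apply 0)).pow 2⟩ : C(X, ℝ)) (pt u n) / (n : ℝ) =
      ∑ n ∈ Icc (Y k) (Z k), a n / n := by
    refine sum_congr rfl fun n hn => ?_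
    have hn1 : 0 < (n : ℤ) + 0 := by
      have h4 := (mem_Icc.1 hn).1
      have h5 := (hYZ k).1
      omega
    have hp : pt u n 0 = u n := by
      unfold pt
      rw [if_pos hn1]
      simp
    show (pt u n 0 : ℝ) ^ 2 / (n : ℝ) = a n / n
    rw [hp]
  rw [e, div_le_iff₀ hk, add_mul, div_mul_cancel₀ _ hk.ne']
  exact h3

end Pool.Agent.H70.WN
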