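import Pool.Agent.H70.WN.TRI
import Pool.Agent.H50.MS.HR

/-!
# Natural means and logarithmic means over windows of a nonnegative multiplicative function
which is small in the logarithmic mean
-/

set_option autoImplicit false

namespace Pool.Agent.H70.WN

open Finset Filter Topology
open Pool.Agent.H89.MT (lavg SS)
open Pool.Agent.H50.MS (vM sum_vM_le sum_div)

/-- the logarithmic averages tend to zero -/
theorem lavg_f (f : ℕ → ℝ) (h0 : ∀ n, 0 ≤ f n) (h1 : ∀ n, f n ≤ 1)
    (hm : ∀ m n : ℕ, 0 < m → 0 < n → m.Coprime n → f (m * n) = f m * f n)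
    (hs : ¬ Summable (fun p : Nat.Primes => (1 - f (p : ℕ)) / ((p : ℕ) : ℝ))) :
    Tendsto (fun N => lavg N f) atTop (𝓝 0) := by
  obtain ⟨C, hC⟩ := Pool.Agent.H33.MT.pf_MERT
  have hD := ss_tendsto (fun n => 1 - f n) (fun n => sub_nonneg.2 (h1 n)) hs
  have hE := Pool.Agent.H33.MT.pf_EUL f h0 h1 hm
  have hlim : Tendsto (fun N => Real.exp (C + 1 - SS (fun n => 1 - f n) N)) atTop (𝓝 0) := by
    apply Real.tendsto_exp_atBot.comp
    have := tendsto_neg_atTop_atBot.comp hD
    have h2 := tendsto_atBot_add_const_left atTop (C + 1) this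
    refine h2.congr fun N => ?_
    simp only [Function.comp_apply]
    ring
  refine squeeze_zero' (Eventually.of_forall fun N => ?_) ?_ hlim
  · unfold lavg
    exact div_nonneg (sum_nonneg fun n _ => div_nonneg (h0 n) (Nat.cast_nonneg n))
      (Real.log_natCast_nonneg N)
  · filter_upwards [eventually_ge_atTop 3] with N hN
    have hl : 0 < Real.log N := Real.log_pos (by exact_mod_cast (by omega : 1 < N))
    unfold lavg
    rw [div_le_iff₀ hl]
    refine (hE N).trans ?_
    have h1 : SS f N = SS (fun _ => 1) N - SS (fun n => 1 - f n) N := by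
      unfold SS
      rw [← sum_sub_distrib]
      refine sum_congr rfl fun p _ => ?_
      ring
    have h2 := hC N hN
    calc Real.exp (SS f N + 1)
        ≤ Real.exp ((C + 1 - SS (fun n => 1 - f n) N) + Real.log (Real.log N)) := by
          refine Real.exp_le_exp.2 ?_
          rw [h1]
          linarith
      _ = Real.exp (C + 1 - SS (fun n => 1 - f n) N) * Real.log N := by
          rw [Real.exp_add, Real.exp_log hl]

open Classical in
/-- the logarithm of a prime power -/
noncomputable def gp (d : ℕ) : ℝ := if IsPrimePow d then Real.log d else 0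

theorem gp_nonneg (d : ℕ) : 0 ≤ gp d := by
  unfold gp
  split_ifs
  · exact Real.log_natCast_nonneg d
  · exact le_rfl

theorem gp_le {d t : ℕ} (h1 : 1 ≤ d) (ht : d ≤ t) : gp d ≤ vM d + Real.log t / Real.log 2 *
    (if d.Prime then 0 else vM d) := by
  have hl2 : 0 < Real.log 2 := Real.log_pos one_lt_two
  have hlt : 0 ≤ Real.log t := Real.log_natCast_nonneg t
  have hv : 0 ≤ vM d := Pool.Agent.H50.MS.vM_nonneg d
  by_cases hp : d.Prime
  · rw [if_pos hp, mul_zero, add_zero]
    unfold gp vM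
    rw [if_pos hp.isPrimePow, ArithmeticFunction.vonMangoldt_apply_prime hp]
  · rw [if_neg hp]
    by_cases hpp : IsPrimePow d
    · have h2 : Real.log 2 ≤ vM d := by
        obtain ⟨p, k, hpr, hk, rfl⟩ := (isPrimePow_nat_iff d).1 hpp
        unfold vM
        rw [ArithmeticFunction.vonMangoldt_apply_pow (by omega),
          ArithmeticFunction.vonMangoldt_apply_prime hpr]
        exact Real.log_le_log (by norm_num) (by exact_mod_cast hpr.two_le)
      unfold gp
      rw [if_pos hpp]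
      have h3 : Real.log d ≤ Real.log t :=
        Real.log_le_log (by exact_mod_cast h1) (by exact_mod_cast ht)
      have h4 : Real.log t ≤ Real.log t / Real.log 2 * vM d := by
        rw [div_mul_eq_mul_div, le_div_iff₀ hl2]
        exact mul_le_mul_of_nonneg_left h2 hlt
      linarith
    · unfold gp
      rw [if_neg hpp]
      positivity

theorem sum_gp_le (t : ℕ) : ∑ d ∈ Icc 1 t, gp d ≤ 60 * t := by
  rcases Nat.eq_zero_or_pos t with rfl | ht
  · simp
  have ht1 : (1 : ℝ) ≤ t := by exact_mod_cast ht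
  have hl2 : 0.6931471803 < Real.log 2 := Real.log_two_gt_d9
  have hlt : 0 ≤ Real.log t := Real.log_natCast_nonneg t
  have h1 : ∑ d ∈ Icc 1 t, gp d ≤ ∑ d ∈ Icc 1 t, vM d + Real.log t / Real.log 2 *
      ∑ d ∈ Icc 1 t, (if d.Prime then 0 else vM d) := by
    rw [mul_sum, ← sum_add_distrib]
    exact sum_le_sum fun d hd => gp_le (mem_Icc.1 hd).1 (mem_Icc.1 hd).2
  have h2 : ∑ d ∈ Icc 1 t, (if d.Prime then 0 else vM d) ≤ 2 * √(t : ℝ) * Real.log t := by
    have h3 := Chebyshev.psi_sub_theta_le (x := (t : ℝ)) ht1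
    rw [Chebyshev.psi_sub_theta_eq_sum_not_prime] at h3
    refine le_trans (le_of_eq ?_) h3
    rw [Nat.floor_natCast, sum_filter]
    have e : Icc 1 t = Ioc 0 t := by
      ext d
      simp only [mem_Icc, mem_Ioc]
      omega
    rw [e]
    refine sum_congr rfl fun d _ => ?_
    by_cases hp : d.Prime
    · simp [hp]
    · simp [hp, vM]
  have h3 := sum_vM_le t
  have hr := Real.log_le_rpow_div (x := (t : ℝ)) (by linarith) (show (0 : ℝ) < 1 / 4 by norm_num)
  set r : ℝ := (t : ℝ) ^ (1 / 4 : ℝ) with hrdef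
  have hr0 : 0 ≤ r := by positivity
  have hr2 : r ^ 2 = √(t : ℝ) := by
    rw [hrdef, Real.sqrt_eq_rpow, ← Real.rpow_natCast, ← Real.rpow_mul (by linarith)]
    norm_num
  have hr4 : √(t : ℝ) * √(t : ℝ) = t := Real.mul_self_sqrt (by linarith)
  have h4 : Real.log t ≤ 4 * r := by linarith
  have h5 : Real.log t * Real.log t ≤ 16 * √(t : ℝ) := by
    calc Real.log t * Real.log t ≤ (4 * r) * (4 * r) := mul_le_mul h4 h4 hlt (by positivity)
      _ = 16 * √(t : ℝ) := by rw [← hr2]; ring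
  have h6 : Real.log t / Real.log 2 * (∑ d ∈ Icc 1 t, (if d.Prime then 0 else vM d)) ≤
      52 * t := by
    refine (mul_le_mul_of_nonneg_left h2 (by positivity)).trans ?_
    rw [div_mul_eq_mul_div, div_le_iff₀ (by linarith)]
    calc Real.log t * (2 * √(t : ℝ) * Real.log t) =
          2 * √(t : ℝ) * (Real.log t * Real.log t) := by ring
      _ ≤ 2 * √(t : ℝ) * (16 * √(t : ℝ)) := mul_le_mul_of_nonneg_left h5 (by positivity)
      _ = 32 * (√(t : ℝ) * √(t : ℝ)) := by ring
      _ = 32 * t := by rw [hr4]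
      _ ≤ 52 * t * Real.log 2 := by nlinarith
  linarith

/-- the sum over pairs -/
theorem mul_log_le (a : ℕ → ℝ) (h0 : ∀ n, 0 ≤ a n) (h1 : ∀ n, a n ≤ 1)
    (hm : ∀ m n : ℕ, 0 < m → 0 < n → m.Coprime n → a (m * n) = a m * a n) (n : ℕ) (hn : 0 < n) :
    a n * Real.log n ≤ ∑ d ∈ n.divisors, gp d * a (n / d) := by
  have hlog : Real.log n = ∑ p ∈ n.primeFactors, Real.log ((p ^ n.factorization p : ℕ) : ℝ) := by
    conv_lhs => rw [← Nat.prod_factorization_pow_eq_self hn.ne']
    rw [Finsupp.prod, Nat.support_factorization, Nat.cast_prod, Real.log_prod]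
    intro p hp
    have := (Nat.prime_of_mem_primeFactors hp).pos
    positivity
  have hinj : Set.InjOn (fun p => p ^ n.factorization p) (n.primeFactors : Set ℕ) := by
    intro p hp q hq h
    have hp' := Finset.mem_coe.1 hp
    have hq' := Finset.mem_coe.1 hq
    have hpp := Nat.prime_of_mem_primeFactors hp'
    have hqp := Nat.prime_of_mem_primeFactors hq'
    have hk : n.factorization p ≠ 0 := by
      rw [← Finsupp.mem_support_iff, Nat.support_factorization]
      exact hp'
    have h2 : p ∣ q ^ n.factorization q := by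
      rw [← show p ^ n.factorization p = q ^ n.factorization q from h]
      exact dvd_pow_self p hk
    exact (Nat.prime_dvd_prime_iff_eq hpp hqp).1 (hpp.dvd_of_dvd_pow h2)
  rw [hlog, mul_sum]
  have h2 : ∀ p ∈ n.primeFactors, a n * Real.log ((p ^ n.factorization p : ℕ) : ℝ) ≤
      gp (p ^ n.factorization p) * a (n / p ^ n.factorization p) := by
    intro p hp
    have hpp := Nat.prime_of_mem_primeFactors hp
    have hk : n.factorization p ≠ 0 := by
      rw [← Finsupp.mem_support_iff, Nat.support_factorization]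
      exact hp
    have hg : gp (p ^ n.factorization p) = Real.log ((p ^ n.factorization p : ℕ) : ℝ) := by
      unfold gp
      rw [if_pos (hpp.isPrimePow.pow hk)]
    rw [hg, mul_comm]
    refine mul_le_mul_of_nonneg_left ?_ (Real.log_natCast_nonneg _)
    have hd : p ^ n.factorization p * (n / p ^ n.factorization p) = n :=
      Nat.ordProj_mul_ordCompl_eq_self n p
    have hc : Nat.Coprime (p ^ n.factorization p) (n / p ^ n.factorization p) :=
      (Nat.coprime_ordCompl hpp hn.ne').pow_left _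
    have hpos : 0 < n / p ^ n.factorization p := Nat.ordCompl_pos p hn.ne'
    have h3 := hm _ _ (pow_pos hpp.pos (n.factorization p)) hpos hc
    rw [hd] at h3
    rw [h3]
    exact mul_le_of_le_one_left (h0 _) (h1 _)
  refine (sum_le_sum h2).trans ?_
  rw [← sum_image (g := fun p => p ^ n.factorization p) (f := fun d => gp d * a (n / d)) hinj]
  refine sum_le_sum_of_subset_of_nonneg ?_ fun d _ _ => mul_nonneg (gp_nonneg d) (h0 _)
  intro d hd
  obtain ⟨p, hp, rfl⟩ := mem_image.1 hd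
  exact Nat.mem_divisors.2 ⟨Nat.ordProj_dvd n p, hn.ne'⟩

/-- the sum with the weight `log n` -/
theorem sum_log_mul_le (a : ℕ → ℝ) (h0 : ∀ n, 0 ≤ a n) (h1 : ∀ n, a n ≤ 1)
    (hm : ∀ m n : ℕ, 0 < m → 0 < n → m.Coprime n → a (m * n) = a m * a n) (x : ℕ) :
    ∑ n ∈ Icc 1 x, a n * Real.log n ≤ 60 * x * ∑ n ∈ Icc 1 x, a n / n := by
  refine (sum_le_sum fun n hn => mul_log_le a h0 h1 hm n (mem_Icc.1 hn).1).trans ?_
  have h2 := sum_div (fun d e => gp d * a e) x
  refine (le_of_eq h2).trans ?_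
  rw [mul_sum]
  refine sum_le_sum fun e he => ?_
  have he1 : (0 : ℝ) < e := by exact_mod_cast (mem_Icc.1 he).1
  rw [← sum_mul]
  have h3 := sum_gp_le (x / e)
  have h4 : ((x / e : ℕ) : ℝ) ≤ (x : ℝ) / e := Nat.cast_div_le
  calc (∑ d ∈ Icc 1 (x / e), gp d) * a e ≤ (60 * ((x / e : ℕ) : ℝ)) * a e :=
        mul_le_mul_of_nonneg_right h3 (h0 e)
    _ ≤ (60 * ((x : ℝ) / e)) * a e := by
        refine mul_le_mul_of_nonneg_right ?_ (h0 e)
        linarith
    _ = 60 * x * (a e / e) := by ring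

/-- the natural mean is small -/
theorem nat_mean (a : ℕ → ℝ) (h0 : ∀ n, 0 ≤ a n) (h1 : ∀ n, a n ≤ 1)
    (hm : ∀ m n : ℕ, 0 < m → 0 < n → m.Coprime n → a (m * n) = a m * a n) (x : ℕ) (hx : 2 ≤ x) :
    ∑ n ∈ Icc 1 x, a n ≤ √(x : ℝ) + 120 * x * lavg x a := by
  have hlx : 0 < Real.log x := Real.log_pos (by exact_mod_cast (by omega : 1 < x))
  have h2 : ∀ n ∈ Icc 1 x, a n ≤ (if n ≤ Nat.sqrt x then (1 : ℝ) else 0) +
      2 / Real.log x * (a n * Real.log n) := by
    intro n hn
    have hn1 := (mem_Icc.1 hn).1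
    have hln : 0 ≤ Real.log n := Real.log_natCast_nonneg n
    by_cases h : n ≤ Nat.sqrt x
    · rw [if_pos h]
      have := h1 n
      have h3 : 0 ≤ 2 / Real.log x * (a n * Real.log n) := by
        have := h0 n
        positivity
      linarith
    · rw [if_neg h, zero_add]
      have h3 : x < n * n := Nat.sqrt_lt.1 (not_le.1 h)
      have h4 : Real.log x ≤ 2 * Real.log n := by
        have h5 : Real.log x ≤ Real.log ((n : ℝ) * n) :=
          Real.log_le_log (by exact_mod_cast (by omega : 0 < x)) (by exact_mod_cast h3.le)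
        rw [Real.log_mul (by positivity) (by positivity)] at h5
        linarith
      rw [div_mul_eq_mul_div, le_div_iff₀ hlx]
      have := mul_le_mul_of_nonneg_left h4 (h0 n)
      linarith
  refine (sum_le_sum h2).trans ?_
  rw [sum_add_distrib, ← mul_sum]
  have h3 : ∑ n ∈ Icc 1 x, (if n ≤ Nat.sqrt x then (1 : ℝ) else 0) ≤ √(x : ℝ) := by
    rw [← sum_filter, sum_const, nsmul_eq_mul, mul_one]
    have h4 : ((Icc 1 x).filter (fun n => n ≤ Nat.sqrt x)).card ≤ Nat.sqrt x := by
      calc ((Icc 1 x).filter (fun n => n ≤ Nat.sqrt x)).card ≤ (Icc 1 (Nat.sqrt x)).card := by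
            refine card_le_card fun n hn => ?_
            obtain ⟨h5, h6⟩ := mem_filter.1 hn
            exact mem_Icc.2 ⟨(mem_Icc.1 h5).1, h6⟩
        _ = Nat.sqrt x := by simp
    calc (((Icc 1 x).filter (fun n => n ≤ Nat.sqrt x)).card : ℝ) ≤ (Nat.sqrt x : ℝ) := by
          exact_mod_cast h4
      _ ≤ √(x : ℝ) := Real.nat_sqrt_le_real_sqrt
  have h5 := sum_log_mul_le a h0 h1 hm x
  have h6 : 2 / Real.log x * ∑ n ∈ Icc 1 x, a n * Real.log n ≤ 120 * x * lavg x a := by
    unfold lavg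
    calc 2 / Real.log x * ∑ n ∈ Icc 1 x, a n * Real.log n
        ≤ 2 / Real.log x * (60 * x * ∑ n ∈ Icc 1 x, a n / n) :=
          mul_le_mul_of_nonneg_left h5 (by positivity)
      _ = 120 * x * ((∑ n ∈ Icc 1 x, a n / n) / Real.log x) := by ring
  linarith

/-- the sum over a window -/
theorem window (a : ℕ → ℝ) (ε : ℝ) (x₀ : ℝ) (hx0 : 0 ≤ x₀) (h0 : ∀ n, 0 ≤ a n)
    (h1 : ∀ n, a n ≤ 1) (hε : 0 ≤ ε)
    (hM : ∀ x : ℕ, 1 ≤ x → ∑ n ∈ Icc 1 x, a n ≤ ε * x + x₀) (Y : ℕ) (hY : 1 ≤ Y) (Z : ℕ)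
    (hZ : Y ≤ Z) :
    ∑ n ∈ Icc Y Z, a n / n ≤ 1 + x₀ + ε * Real.log ((Z : ℝ) / Y) := by
  have hY0 : (0 : ℝ) < Y := by exact_mod_cast hY
  have key : ∑ n ∈ Icc Y Z, a n / n ≤ (∑ n ∈ Icc 1 Z, a n) / Z + ε * Real.log ((Z : ℝ) / Y) +
      x₀ * (1 / Y - 1 / Z) := by
    induction Z, hZ using Nat.le_induction with
    | base =>
      rw [Icc_self, sum_singleton, div_self hY0.ne', Real.log_one, sub_self, mul_zero, mul_zero,
        add_zero, add_zero]
      refine div_le_div_of_nonneg_right ?_ hY0.le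
      exact single_le_sum (f := a) (fun i _ => h0 i) (mem_Icc.2 ⟨hY, le_rfl⟩)
    | succ Z hZ ih =>
      have hZ0 : (0 : ℝ) < Z := lt_of_lt_of_le hY0 (by exact_mod_cast hZ)
      rw [sum_Icc_succ_top (by omega), sum_Icc_succ_top (by omega)]
      have hMZ := hM Z (by omega)
      set M := ∑ n ∈ Icc 1 Z, a n with hMdef
      have hlog : Real.log ((Z : ℝ) / Y) + 1 / ((Z : ℝ) + 1) ≤
          Real.log (((Z + 1 : ℕ) : ℝ) / Y) := by
        rw [Real.log_div hZ0.ne' hY0.ne', Real.log_div (by positivity) hY0.ne']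
        push_cast
        have h2 : 1 / ((Z : ℝ) + 1) ≤ Real.log ((Z : ℝ) + 1) - Real.log Z := by
          have h3 := Real.one_sub_inv_le_log_of_pos (x := ((Z : ℝ) + 1) / Z) (by positivity)
          rw [Real.log_div (by positivity) hZ0.ne', inv_div] at h3
          have e : 1 - (Z : ℝ) / (Z + 1) = 1 / ((Z : ℝ) + 1) := by
            field_simp
            ring
          linarith
        linarith
      have hlog2 := mul_le_mul_of_nonneg_left hlog hε
      have e1 : (M + a (Z + 1)) / ((Z + 1 : ℕ) : ℝ) =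
          a (Z + 1) / ((Z + 1 : ℕ) : ℝ) + M / Z - M / (Z * (Z + 1)) := by
        push_cast
        field_simp
        ring
      have e2 : x₀ * (1 / Y - 1 / ((Z + 1 : ℕ) : ℝ)) =
          x₀ * (1 / Y - 1 / Z) + x₀ / (Z * (Z + 1)) := by
        push_cast
        field_simp
        ring
      have e3 : M / ((Z : ℝ) * (Z + 1)) ≤ ε * (1 / ((Z : ℝ) + 1)) + x₀ / (Z * (Z + 1)) := by
        calc M / ((Z : ℝ) * (Z + 1)) ≤ (ε * Z + x₀) / ((Z : ℝ) * (Z + 1)) :=
              div_le_div_of_nonneg_right hMZ (by positivity)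
          _ = ε * (1 / ((Z : ℝ) + 1)) + x₀ / (Z * (Z + 1)) := by
              field_simp
      rw [e1, e2]
      linarith
  have hZ0 : (0 : ℝ) < Z := lt_of_lt_of_le hY0 (by exact_mod_cast hZ)
  have h2 : (∑ n ∈ Icc 1 Z, a n) / Z ≤ 1 := by
    rw [div_le_one hZ0]
    calc ∑ n ∈ Icc 1 Z, a n ≤ ∑ n ∈ Icc 1 Z, (1 : ℝ) := sum_le_sum fun n _ => h1 n
      _ = Z := by simp
  have h3 : x₀ * (1 / Y - 1 / Z) ≤ x₀ := by
    have h4 : 1 / (Y : ℝ) ≤ 1 := by
      rw [div_le_one hY0]
      exact_mod_cast hY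
    have h5 : 0 ≤ 1 / (Z : ℝ) := by positivity
    calc x₀ * (1 / Y - 1 / Z) ≤ x₀ * 1 := mul_le_mul_of_nonneg_left (by linarith) hx0
      _ = x₀ := mul_one _
  linarith

end Pool.Agent.H70.WN
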