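import Pool.Agent.H21.WN.Targets
import Pool.Agent.H33.MT.EUL
import Pool.Agent.H33.MT.MERT

/-!
# White noise: real multiplicative functions far from absolute value one (row TRI)
-/

set_option autoImplicit false

namespace Pool.Agent.H70.WN

open MeasureTheory ProbabilityTheory Filter Topology Finset
open Pool.Agent.H89.MT (I1 X pt IsMult QuasiGeneric lavg SS pr)
open Pool.Agent.H83.W (S S_cont qg_mp)
open Pool.Agent.H21.WN

/-- the sum over the primes tends to infinity if it is not summable -/
theorem ss_tendsto (w : ℕ → ℝ) (h0 : ∀ n, 0 ≤ w n)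
    (hs : ¬ Summable (fun p : Nat.Primes => w (p : ℕ) / ((p : ℕ) : ℝ))) :
    Tendsto (fun N => SS w N) atTop atTop := by
  set g : ℕ → ℝ := Set.indicator {p : ℕ | p.Prime} (fun n => w n / n) with hg
  have g0 : ∀ n, 0 ≤ g n := fun n => Set.indicator_nonneg
    (fun n _ => div_nonneg (h0 n) (Nat.cast_nonneg n)) n
  have h1 : ¬ Summable g := by
    intro h
    apply hs
    exact (summable_subtype_iff_indicator (f := fun n : ℕ => w n / n) (s := {p : ℕ | p.Prime})).2 h
  have h2 := (not_summable_iff_tendsto_nat_atTop_of_nonneg g0).1 h1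
  have h3 : ∀ N, SS w N = ∑ n ∈ range (N + 1), g n := by
    intro N
    unfold SS pr
    rw [sum_filter]
    have e : range (N + 1) = insert 0 (Icc 1 N) := by
      ext n
      simp only [mem_range, mem_insert, mem_Icc]
      omega
    rw [e, sum_insert (by simp)]
    have e0 : g 0 = 0 := by
      rw [hg, Set.indicator_of_notMem]
      simp [Nat.not_prime_zero]
    rw [e0, zero_add]
    refine sum_congr rfl fun n _ => ?_
    rw [hg]
    by_cases hp : n.Prime
    · rw [if_pos hp, Set.indicator_of_mem (by simpa using hp)]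
    · rw [if_neg hp, Set.indicator_of_notMem (by simpa using hp)]
  simp only [h3]
  exact h2.comp (tendsto_add_atTop_nat 1)

/-- the logarithmic averages of the absolute value tend to zero -/
theorem lavg_abs (u : ℕ → I1) (hu : IsMult u)
    (hs : ¬ Summable (fun p : Nat.Primes => (1 - |(u (p : ℕ) : ℝ)|) / ((p : ℕ) : ℝ))) :
    Tendsto (fun N => lavg N (fun n => |(u n : ℝ)|)) atTop (𝓝 0) := by
  obtain ⟨C, hC⟩ := Pool.Agent.H33.MT.pf_MERT
  have hb : ∀ n, |(u n : ℝ)| ≤ 1 := fun n => abs_le.2 ⟨(u n).2.1, (u n).2.2⟩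
  have hD := ss_tendsto (fun n => 1 - |(u n : ℝ)|) (fun n => sub_nonneg.2 (hb n)) hs
  have hE := Pool.Agent.H33.MT.pf_EUL (fun n => |(u n : ℝ)|) (fun n => abs_nonneg _) hb
    (fun m n hm hn h => by
      show |(u (m * n) : ℝ)| = |(u m : ℝ)| * |(u n : ℝ)|
      rw [hu.2 m n hm hn h, abs_mul])
  have hlim : Tendsto (fun N => Real.exp (C + 1 - SS (fun n => 1 - |(u n : ℝ)|) N)) atTop
      (𝓝 0) := by
    apply Real.tendsto_exp_atBot.comp
    have := tendsto_neg_atTop_atBot.comp hD
    have h2 := tendsto_atBot_add_const_left atTop (C + 1) this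
    refine h2.congr fun N => ?_
    simp only [Function.comp_apply]
    ring
  refine squeeze_zero' (Eventually.of_forall fun N => ?_) ?_ hlim
  · unfold lavg
    exact div_nonneg (sum_nonneg fun n _ => div_nonneg (abs_nonneg _) (Nat.cast_nonneg n))
      (Real.log_natCast_nonneg N)
  · filter_upwards [eventually_ge_atTop 3] with N hN
    have hl : 0 < Real.log N := Real.log_pos (by exact_mod_cast (by omega : 1 < N))
    unfold lavg
    rw [div_le_iff₀ hl]
    refine (hE N).trans ?_
    have h1 : SS (fun n => |(u n : ℝ)|) N =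
        SS (fun _ => 1) N - SS (fun n => 1 - |(u n : ℝ)|) N := by
      unfold SS
      rw [← sum_sub_distrib]
      refine sum_congr rfl fun p _ => ?_
      ring
    have h2 := hC N hN
    calc Real.exp (SS (fun n => |(u n : ℝ)|) N + 1)
        ≤ Real.exp ((C + 1 - SS (fun n => 1 - |(u n : ℝ)|) N) + Real.log (Real.log N)) := by
          refine Real.exp_le_exp.2 ?_
          rw [h1]
          linarith
      _ = Real.exp (C + 1 - SS (fun n => 1 - |(u n : ℝ)|) N) * Real.log N := by
          rw [Real.exp_add, Real.exp_log hl]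

theorem iter_S (k : ℕ) (x : X) (m : ℤ) : (S^[k]) x m = x (m + k) := by
  induction k generalizing x m with
  | zero => simp
  | succ k ih =>
    rw [Function.iterate_succ_apply, ih]
    unfold S
    congr 1
    push_cast
    ring

/-- TRI. -/
theorem pf_TRI : T_TRI := by
  intro u κ _ hu hq hs
  have hl := lavg_abs u hu hs
  have hmp := qg_mp hq
  obtain ⟨-, N, hN, hF⟩ := hq
  have hcont : ∀ m : ℤ, Continuous fun x : X => |(x m : ℝ)| := fun m =>
    (continuous_subtype_val.comp (continuous_apply m)).abs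
  have h0 : ∫ x : X, |(x 0 : ℝ)| ∂κ = 0 := by
    have h1 := hF ⟨fun x => |(x 0 : ℝ)|, hcont 0⟩
    have h2 := hl.comp hN
    refine tendsto_nhds_unique h1 (h2.congr fun k => ?_)
    simp only [Function.comp_apply, ContinuousMap.coe_mk]
    unfold lavg
    congr 1
    refine sum_congr rfl fun n hn => ?_
    have hn1 : 0 < (n : ℤ) + 0 := by
      have := (mem_Icc.1 hn).1
      omega
    have hp : pt u n 0 = u n := by
      unfold pt
      rw [if_pos hn1]
      simp
    show |(u n : ℝ)| / (n : ℝ) = |(pt u n 0 : ℝ)| / (n : ℝ)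
    rw [hp]
  have hsh : ∀ (k : ℕ) (m : ℤ), ∫ x : X, |(x (m + k) : ℝ)| ∂κ = ∫ x : X, |(x m : ℝ)| ∂κ := by
    intro k m
    have hk := hmp.iterate k
    have h3 : ∫ x : X, |(x m : ℝ)| ∂(κ.map (S^[k])) = ∫ x : X, |((S^[k]) x m : ℝ)| ∂κ :=
      integral_map hk.measurable.aemeasurable (hcont m).aestronglyMeasurable
    rw [hk.map_eq] at h3
    rw [h3]
    refine integral_congr_ae (Eventually.of_forall fun x => ?_)
    show |(x (m + k) : ℝ)| = |((S^[k]) x m : ℝ)|
    rw [iter_S]
  have hm : ∀ m : ℤ, ∫ x : X, |(x m : ℝ)| ∂κ = 0 := by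
    intro m
    rcases le_total 0 m with h | h
    · obtain ⟨k, rfl⟩ := Int.eq_ofNat_of_zero_le h
      have := hsh k 0
      rw [zero_add] at this
      rw [this, h0]
    · obtain ⟨k, hk⟩ := Int.eq_ofNat_of_zero_le (by omega : 0 ≤ -m)
      have := hsh k m
      have e : m + (k : ℤ) = 0 := by omega
      rw [e, h0] at this
      exact this.symm
  rw [ae_all_iff]
  intro m
  have h1 : Integrable (fun x : X => |(x m : ℝ)|) κ :=
    Integrable.of_bound (hcont m).aestronglyMeasurable 1 (Eventually.of_forall fun x => by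
      rw [Real.norm_eq_abs, abs_abs]
      exact abs_le.2 ⟨(x m).2.1, (x m).2.2⟩)
  have h2 := (integral_eq_zero_iff_of_nonneg (fun x => abs_nonneg _) h1).1 (hm m)
  filter_upwards [h2] with x hx
  exact abs_eq_zero.1 hx

end Pool.Agent.H70.WN
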