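import Pool.Agent.H70.WN.TRI
import Pool.Agent.H24.WN.Mass

/-!
# White noise: real multiplicative functions far from absolute value one, the components
-/

set_option autoImplicit false

namespace Pool.Agent.H70.WN

open MeasureTheory ProbabilityTheory Filter Topology Finset
open Pool.Agent.H89.MT (I1 X pt IsMult QuasiGeneric)
open Pool.Agent.H83.W (S S_cont qg_mp)
open Pool.Agent.H24.EG
open Pool.Agent.H24.WN
open Pool.Agent.H21.WN

/-- a property which holds almost everywhere holds almost everywhere for almost every component -/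
theorem ae_comp (κ : Measure X) [IsProbabilityMeasure κ] {p : X → Prop}
    (hp : MeasurableSet {x | p x}) (h : ∀ᵐ x ∂κ, p x) : ∀ᵐ x ∂κ, ∀ᵐ y ∂(comp κ x), p y := by
  have h0 : κ {x | p x}ᶜ = 0 := h
  have h1 := condExpKernel_ae_eq_condExp (μ := κ) IS_le hp.compl
  have h2 : κ⟦{x | p x}ᶜ|MeasurableSpace.invariants S⟧ =ᵐ[κ] 0 := by
    have e : ({x | p x}ᶜ.indicator fun _ => (1 : ℝ)) =ᵐ[κ] 0 := by
      filter_upwards [h] with x hx
      rw [Set.indicator_of_notMem]
      · rfl
      · simpa using hx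
    exact (condExp_congr_ae e).trans (by rw [condExp_zero])
  filter_upwards [h1, h2] with x h3 h4
  have hP : IsProbabilityMeasure (comp κ x) := by unfold comp; infer_instance
  have h5 : (comp κ x).real {x | p x}ᶜ = 0 := by
    have := h3.trans h4
    simpa [comp] using this
  rw [measureReal_eq_zero_iff] at h5
  exact h5

/-- almost every point of almost every component is the zero sequence -/
theorem tri_comp (u : ℕ → I1) (κ : Measure X) [IsProbabilityMeasure κ] (hu : IsMult u)
    (hq : QuasiGeneric u κ)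
    (hs : ¬ Summable (fun p : Nat.Primes => (1 - |(u (p : ℕ) : ℝ)|) / ((p : ℕ) : ℝ))) :
    ∀ᵐ x ∂κ, ∀ᵐ y ∂(comp κ x), ∀ n : ℤ, (y n : ℝ) = 0 := by
  refine ae_comp κ ?_ (pf_TRI u κ hu hq hs)
  have e : {x : X | ∀ n : ℤ, (x n : ℝ) = 0} = ⋂ n : ℤ, {x : X | (x n : ℝ) = 0} := by
    ext x
    simp
  rw [e]
  exact MeasurableSet.iInter fun n => measurableSet_eq_fun (c0r n) measurable_const

/-- the spectral measure of almost every component is zero -/
theorem tri_spec (u : ℕ → I1) (κ : Measure X) [IsProbabilityMeasure κ] (hu : IsMult u)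
    (hq : QuasiGeneric u κ)
    (hs : ¬ Summable (fun p : Nat.Primes => (1 - |(u (p : ℕ) : ℝ)|) / ((p : ℕ) : ℝ))) :
    ∀ᵐ x ∂κ, Spec (comp κ x) 0 ∧ W κ x = 0 := by
  filter_upwards [tri_comp u κ hu hq hs] with x hx
  have h1 : Spec (comp κ x) 0 := by
    refine ⟨fun _ => 0, fun _ => 0, fun _ => le_rfl, summable_zero, ?_, fun h _ => ?_⟩
    · rw [tsum_zero, add_zero]
      refine integral_eq_zero_of_ae ?_
      filter_upwards [hx] with y hy
      show (y 0 : ℝ) ^ 2 = 0
      rw [hy 0]
      norm_num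
    · simp only [zero_mul, tsum_zero]
      refine integral_eq_zero_of_ae ?_
      filter_upwards [hx] with y hy
      show (y 0 : ℝ) * (y (h : ℤ) : ℝ) = 0
      rw [hy 0, zero_mul]
  exact ⟨h1, W_eq κ le_rfl h1⟩

/-- the continuous part vanishes -/
theorem tri_h0 (u : ℕ → I1) (κ : Measure X) [IsProbabilityMeasure κ] (hu : IsMult u)
    (hq : QuasiGeneric u κ)
    (hs : ¬ Summable (fun p : Nat.Primes => (1 - |(u (p : ℕ) : ℝ)|) / ((p : ℕ) : ℝ))) :
    ∀ᵐ x ∂κ, ∀ hS : MeasurePreserving S (comp κ x) (comp κ x),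
      have : IsProbabilityMeasure (comp κ x) := by unfold comp; infer_instance
      ∀ h : ℕ, 1 ≤ h →
      (inner ℂ (cp (Uc hS) (y0 (comp κ x))) ((Uc hS)^[h] (cp (Uc hS) (y0 (comp κ x))))).re = 0 := by
  filter_upwards [tri_comp u κ hu hq hs] with x hx hS hP h _
  have h1 : y0 (comp κ x) = 0 := by
    apply Lp.ext
    filter_upwards [coe_y0 (comp κ x), Lp.coeFn_zero ℂ 2 (comp κ x), hx] with y h2 h3 h4
    rw [h2, h3, h4 0]
    simp
  have h2 : cp (Uc hS) (y0 (comp κ x)) = 0 := by
    have hz : ∀ z : Circle, pe (Uc hS) 0 z = 0 := fun z => by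
      unfold pe
      exact map_zero _
    rw [h1]
    unfold cp dp
    simp only [hz, tsum_zero, sub_zero]
  rw [h2, inner_zero_left, Complex.zero_re]

end Pool.Agent.H70.WN
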