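import Pool.Agent.H70.WN.TRIc

/-!
# White noise: the degenerate case for an invariant measure
-/

set_option autoImplicit false

namespace Pool.Agent.H70.WN

open MeasureTheory ProbabilityTheory Filter Topology Finset
open Pool.Agent.H89.MT (I1 X)
open Pool.Agent.H83.W (S)
open Pool.Agent.H24.EG
open Pool.Agent.H24.WN

/-- if the zeroth coordinate vanishes in `L²(κ)`, all coordinates vanish almost everywhere -/
theorem zero_ae (κ : Measure X) [IsProbabilityMeasure κ] (hmp : MeasurePreserving S κ κ)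
    (h0 : ∫ y, (y 0 : ℝ) ^ 2 ∂κ = 0) : ∀ᵐ x ∂κ, ∀ n : ℤ, (x n : ℝ) = 0 := by
  have hcont : ∀ m : ℤ, Continuous fun x : X => (x m : ℝ) ^ 2 := fun m =>
    (continuous_subtype_val.comp (continuous_apply m)).pow 2
  have hsh : ∀ (k : ℕ) (m : ℤ), ∫ x : X, (x (m + k) : ℝ) ^ 2 ∂κ = ∫ x : X, (x m : ℝ) ^ 2 ∂κ := by
    intro k m
    have hk := hmp.iterate k
    have h3 : ∫ x : X, (x m : ℝ) ^ 2 ∂(κ.map (S^[k])) = ∫ x : X, ((S^[k]) x m : ℝ) ^ 2 ∂κ :=
      integral_map hk.measurable.aemeasurable (hcont m).aestronglyMeasurable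
    rw [hk.map_eq] at h3
    rw [h3]
    refine integral_congr_ae (Eventually.of_forall fun x => ?_)
    show (x (m + k) : ℝ) ^ 2 = ((S^[k]) x m : ℝ) ^ 2
    rw [iter_S]
  have hm : ∀ m : ℤ, ∫ x : X, (x m : ℝ) ^ 2 ∂κ = 0 := by
    intro m
    rcases le_total 0 m with h | h
    · obtain ⟨k, rfl⟩ := Int.eq_ofNat_of_zero_le h
      have := hsh k 0
      rw [zero_add] at this
      rw [this, h0]
    · obtain ⟨k, hk⟩ := Int.eq_ofNat_of_zero_le (by omega : 0 ≤ -m)
      have := hsh k m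
      have e : m + (k : ℤ) = 0 := by omega
      rw [e, h0] at this
      exact this.symm
  rw [ae_all_iff]
  intro m
  have h1 : Integrable (fun x : X => (x m : ℝ) ^ 2) κ :=
    Integrable.of_bound (hcont m).aestronglyMeasurable 1 (Eventually.of_forall fun x => by
      rw [Real.norm_eq_abs, abs_of_nonneg (sq_nonneg _)]
      have := (x m).2.1
      have := (x m).2.2
      nlinarith)
  have h2 := (integral_eq_zero_iff_of_nonneg (fun x => sq_nonneg _) h1).1 (hm m)
  filter_upwards [h2] with x hx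
  exact pow_eq_zero_iff (two_ne_zero) |>.1 hx

/-- almost every point of almost every component is the zero sequence -/
theorem zero_comp (κ : Measure X) [IsProbabilityMeasure κ] (hmp : MeasurePreserving S κ κ)
    (h0 : ∫ y, (y 0 : ℝ) ^ 2 ∂κ = 0) : ∀ᵐ x ∂κ, ∀ᵐ y ∂(comp κ x), ∀ n : ℤ, (y n : ℝ) = 0 := by
  refine ae_comp κ ?_ (zero_ae κ hmp h0)
  have e : {x : X | ∀ n : ℤ, (x n : ℝ) = 0} = ⋂ n : ℤ, {x : X | (x n : ℝ) = 0} := by
    ext x
    simp
  rw [e]
  exact MeasurableSet.iInter fun n => measurableSet_eq_fun (c0r n) measurable_const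

/-- the spectral measure of almost every component is zero -/
theorem zero_spec (κ : Measure X) [IsProbabilityMeasure κ] (hmp : MeasurePreserving S κ κ)
    (h0 : ∫ y, (y 0 : ℝ) ^ 2 ∂κ = 0) : ∀ᵐ x ∂κ, Spec (comp κ x) 0 ∧ W κ x = 0 := by
  filter_upwards [zero_comp κ hmp h0] with x hx
  have h1 : Spec (comp κ x) 0 := by
    refine ⟨fun _ => 0, fun _ => 0, fun _ => le_rfl, summable_zero, ?_, fun h _ => ?_⟩
    · rw [tsum_zero, add_zero]
      refine integral_eq_zero_of_ae ?_
      filter_upwards [hx] with y hy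
      show (y 0 : ℝ) ^ 2 = 0
      rw [hy 0]
      norm_num
    · simp only [zero_mul, tsum_zero]
      refine integral_eq_zero_of_ae ?_
      filter_upwards [hx] with y hy
      show (y 0 : ℝ) * (y (h : ℤ) : ℝ) = 0
      rw [hy 0, zero_mul]
  exact ⟨h1, W_eq κ le_rfl h1⟩

/-- the continuous part vanishes -/
theorem zero_h0 (κ : Measure X) [IsProbabilityMeasure κ] (hmp : MeasurePreserving S κ κ)
    (h0 : ∫ y, (y 0 : ℝ) ^ 2 ∂κ = 0) :
    ∀ᵐ x ∂κ, ∀ hS : MeasurePreserving S (comp κ x) (comp κ x),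
      have : IsProbabilityMeasure (comp κ x) := by unfold comp; infer_instance
      ∀ h : ℕ, 1 ≤ h →
      (inner ℂ (cp (Uc hS) (y0 (comp κ x))) ((Uc hS)^[h] (cp (Uc hS) (y0 (comp κ x))))).re = 0 := by
  filter_upwards [zero_comp κ hmp h0] with x hx hS hP h _
  have h1 : y0 (comp κ x) = 0 := by
    apply Lp.ext
    filter_upwards [coe_y0 (comp κ x), Lp.coeFn_zero ℂ 2 (comp κ x), hx] with y h2 h3 h4
    rw [h2, h3, h4 0]
    simp
  have h2 : cp (Uc hS) (y0 (comp κ x)) = 0 := by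
    have hz : ∀ z : Circle, pe (Uc hS) 0 z = 0 := fun z => by
      unfold pe
      exact map_zero _
    rw [h1]
    unfold cp dp
    simp only [hz, tsum_zero, sub_zero]
  rw [h2, inner_zero_left, Complex.zero_re]

end Pool.Agent.H70.WN
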